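import Pool.Agent.H37.MF.Lap

/-!
# Row LA: Landau's theorem for Laplace integrals
-/

set_option autoImplicit false

open Complex MeasureTheory Filter Topology Set

namespace Pool.Agent.H37.MF

open Pool.Agent.H25.MF

/-- On bounded intervals every exponential weight is fine. -/
lemma Ab.bounded {f : ℝ → ℝ} {σ : ℝ} (h : Ab f σ) (τ W : ℝ) :
    IntegrableOn (fun t : ℝ => f t * Real.exp (-(τ * t))) (Ioc 0 W) := by
  have h0 : IntegrableOn (fun t : ℝ => f t * Real.exp (-(σ * t))) (Ioc 0 W) :=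
    h.mono_set Ioc_subset_Ioi_self
  have h1 : Integrable (fun t : ℝ => f t * Real.exp (-(σ * t))) (volume.restrict (Ioc 0 W)) := h0
  have h2 := h1.norm.const_mul (Real.exp (|σ - τ| * |W|))
  have h3 : AEStronglyMeasurable (fun t : ℝ => Real.exp ((σ - τ) * t) *
      (f t * Real.exp (-(σ * t)))) (volume.restrict (Ioc 0 W)) :=
    (Continuous.aestronglyMeasurable (by fun_prop)).mul h1.aestronglyMeasurable
  have h4 : Integrable (fun t : ℝ => Real.exp ((σ - τ) * t) *
      (f t * Real.exp (-(σ * t)))) (volume.restrict (Ioc 0 W)) := by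
    refine Integrable.mono' h2 h3 ?_
    filter_upwards [ae_restrict_mem measurableSet_Ioc] with t ht
    rw [norm_mul, Real.norm_eq_abs, abs_of_pos (Real.exp_pos _)]
    apply mul_le_mul_of_nonneg_right _ (norm_nonneg _)
    apply Real.exp_le_exp.2
    calc (σ - τ) * t ≤ |(σ - τ) * t| := le_abs_self _
      _ = |σ - τ| * |t| := abs_mul _ _
      _ ≤ |σ - τ| * |W| := by
          apply mul_le_mul_of_nonneg_left _ (abs_nonneg _)
          rw [abs_of_pos ht.1]
          exact le_trans ht.2 (le_abs_self W)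
  have h5 : Integrable (fun t : ℝ => f t * Real.exp (-(τ * t))) (volume.restrict (Ioc 0 W)) := by
    refine h4.congr ?_
    filter_upwards with t
    rw [mul_left_comm, ← Real.exp_add]
    congr 2
    ring
  exact h5

/-- Summability of the part of the moments belonging to a bounded interval. -/
lemma summable_low {f : ℝ → ℝ} {σ a : ℝ} (h : Ab f σ) (ha : σ < a) (W y : ℝ) (hW : 0 ≤ W)
    (hy : 0 ≤ y) :
    Summable (fun n : ℕ => y ^ n / (n.factorial : ℝ) *
      ∫ t in Ioc 0 W, t ^ n * (f t * Real.exp (-(a * t)))) := by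
  have h0 := h.bounded a W
  set C := ∫ t in Ioc 0 W, |f t * Real.exp (-(a * t))| with hC
  have hC0 : 0 ≤ C := integral_nonneg (fun t => abs_nonneg _)
  have hs : Summable (fun n : ℕ => (y * W) ^ n / (n.factorial : ℝ) * C) :=
    (Real.summable_pow_div_factorial (y * W)).mul_right C
  refine Summable.of_norm_bounded hs ?_
  intro n
  have h1 : |∫ t in Ioc 0 W, t ^ n * (f t * Real.exp (-(a * t)))| ≤ W ^ n * C := by
    calc |∫ t in Ioc 0 W, t ^ n * (f t * Real.exp (-(a * t)))|
        ≤ ∫ t in Ioc 0 W, |t ^ n * (f t * Real.exp (-(a * t)))| := abs_integral_le_integral_abs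
      _ ≤ ∫ t in Ioc 0 W, W ^ n * |f t * Real.exp (-(a * t))| := by
          apply integral_mono_ae
          · exact (((h.pow ha n).mono_set Ioc_subset_Ioi_self).abs)
          · exact (h0.abs).const_mul _
          · filter_upwards [ae_restrict_mem measurableSet_Ioc] with t ht
            rw [abs_mul, abs_of_nonneg (pow_nonneg ht.1.le n)]
            apply mul_le_mul_of_nonneg_right _ (abs_nonneg _)
            exact pow_le_pow_left₀ ht.1.le ht.2 n
      _ = W ^ n * C := by
          rw [integral_const_mul]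
  rw [norm_mul, Real.norm_eq_abs, Real.norm_eq_abs, abs_of_nonneg (by positivity)]
  calc y ^ n / (n.factorial : ℝ) * |∫ t in Ioc 0 W, t ^ n * (f t * Real.exp (-(a * t)))|
      ≤ y ^ n / (n.factorial : ℝ) * (W ^ n * C) := by gcongr
    _ = (y * W) ^ n / (n.factorial : ℝ) * C := by
        rw [mul_pow]
        ring

/-- Summability of the moments gives integrability further to the left. -/
lemma integrable_of_summable {f : ℝ → ℝ} {σ a : ℝ} (h : Ab f σ) (ha : σ < a) (W y : ℝ)
    (hW : 0 ≤ W) (hy : 0 ≤ y) (hf : ∀ t, W < t → 0 ≤ f t)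
    (hs : Summable (fun n : ℕ => y ^ n / (n.factorial : ℝ) *
      ∫ t in Ioi W, t ^ n * (f t * Real.exp (-(a * t))))) :
    IntegrableOn (fun t : ℝ => f t * Real.exp (-((a - y) * t))) (Ioi W) := by
  have hsub : Ioi W ⊆ Ioi (0 : ℝ) := Ioi_subset_Ioi hW
  set μ := volume.restrict (Ioi W) with hμ
  have hmem : ∀ᵐ t ∂μ, t ∈ Ioi W := ae_restrict_mem measurableSet_Ioi
  set g : ℕ → ℝ → ℝ := fun n t => y ^ n / (n.factorial : ℝ) * (t ^ n * (f t * Real.exp (-(a * t))))
    with hg
  have hgi : ∀ n, Integrable (g n) μ := by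
    intro n
    have : Integrable (fun t : ℝ => t ^ n * (f t * Real.exp (-(a * t)))) μ :=
      (h.pow ha n).mono_set hsub
    exact this.const_mul _
  have hg0 : ∀ n, 0 ≤ᵐ[μ] g n := by
    intro n
    filter_upwards [hmem] with t ht
    have ht0 : 0 ≤ t := le_trans hW (le_of_lt ht)
    have := hf t ht
    rw [hg]
    simp only [Pi.zero_apply]
    positivity
  have hint : ∀ n, ∫ t, g n t ∂μ = y ^ n / (n.factorial : ℝ) *
      ∫ t in Ioi W, t ^ n * (f t * Real.exp (-(a * t))) := by
    intro n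
    rw [hg]
    simp only
    rw [integral_const_mul]
  have hsum : ∀ t, HasSum (fun n => g n t) (f t * Real.exp (-((a - y) * t))) := by
    intro t
    have h5 := NormedSpace.expSeries_div_hasSum_exp (y * t)
    rw [← Real.exp_eq_exp_ℝ] at h5
    have h6 := h5.mul_right (f t * Real.exp (-(a * t)))
    have e : Real.exp (y * t) * (f t * Real.exp (-(a * t))) = f t * Real.exp (-((a - y) * t)) := by
      rw [mul_left_comm, ← Real.exp_add]
      congr 2
      ring
    rw [e] at h6
    refine h6.congr_fun ?_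
    intro n
    rw [hg]
    simp only
    rw [mul_pow]
    ring
  have hmeas : AEStronglyMeasurable (fun t : ℝ => f t * Real.exp (-((a - y) * t))) μ := by
    have h7 : Integrable (fun t : ℝ => f t * Real.exp (-(σ * t))) μ := h.mono_set hsub
    have h8 : AEStronglyMeasurable (fun t : ℝ => Real.exp ((σ - (a - y)) * t) *
        (f t * Real.exp (-(σ * t)))) μ :=
      (Continuous.aestronglyMeasurable (by fun_prop)).mul h7.aestronglyMeasurable
    refine h8.congr ?_
    filter_upwards with t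
    rw [mul_left_comm, ← Real.exp_add]
    congr 2
    ring
  have hpos : 0 ≤ᵐ[μ] (fun t : ℝ => f t * Real.exp (-((a - y) * t))) := by
    filter_upwards [hmem] with t ht
    have := hf t ht
    simp only [Pi.zero_apply]
    positivity
  have hfin : ∫⁻ t, ENNReal.ofReal (f t * Real.exp (-((a - y) * t))) ∂μ ≠ ⊤ := by
    have e1 : ∫⁻ t, ENNReal.ofReal (f t * Real.exp (-((a - y) * t))) ∂μ =
        ∫⁻ t, ∑' n, ENNReal.ofReal (g n t) ∂μ := by
      apply lintegral_congr_ae
      have hall : ∀ᵐ t ∂μ, ∀ n, 0 ≤ g n t := ae_all_iff.2 hg0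
      filter_upwards [hall] with t ht
      rw [← ENNReal.ofReal_tsum_of_nonneg ht (hsum t).summable, (hsum t).tsum_eq]
    rw [e1, lintegral_tsum (fun n => (hgi n).aestronglyMeasurable.aemeasurable.ennreal_ofReal)]
    have e2 : ∀ n, ∫⁻ t, ENNReal.ofReal (g n t) ∂μ = ENNReal.ofReal (y ^ n / (n.factorial : ℝ) *
        ∫ t in Ioi W, t ^ n * (f t * Real.exp (-(a * t)))) := by
      intro n
      rw [← ofReal_integral_eq_lintegral_ofReal (hgi n) (hg0 n), hint n]
    simp only [e2]
    exact hs.tsum_ofReal_ne_top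
  exact (lintegral_ofReal_ne_top_iff_integrable hmeas hpos).1 hfin

/-- A complex analytic function, restricted to the real line. -/
lemma real_analytic {Φ : ℂ → ℂ} {x : ℝ} (h : AnalyticAt ℂ Φ (x : ℂ)) :
    AnalyticAt ℝ (fun y : ℝ => Φ (y : ℂ)) x := by
  have h1 : AnalyticAt ℝ Φ (Complex.ofRealCLM x) := h.restrictScalars
  exact AnalyticAt.comp (g := Φ) (f := fun y : ℝ => Complex.ofRealCLM y) h1
    (Complex.ofRealCLM.analyticAt x)

/-- Row LA. -/
theorem pf_LA : T_LA := by
  intro f V σ₀ σ₁ σ₂ Φ h10 h02 hf hint hA hΦ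
  by_contra hcon
  have hAb0 : Ab f σ₀ := hint
  have hnot : ¬ Ab f σ₁ := hcon
  set B : Set ℝ := {σ | σ₁ ≤ σ ∧ σ ≤ σ₀ ∧ ¬ Ab f σ} with hB
  have hB1 : σ₁ ∈ B := ⟨le_rfl, h10, hnot⟩
  have hBb : BddAbove B := ⟨σ₀, fun σ hσ => hσ.2.1⟩
  set s := sSup B with hs
  have hs1 : σ₁ ≤ s := le_csSup hBb hB1
  have hs0 : s ≤ σ₀ := csSup_le ⟨σ₁, hB1⟩ (fun σ hσ => hσ.2.1)
  have hAb : ∀ σ, s < σ → Ab f σ := by
    intro σ hσ
    rcases le_or_gt σ σ₀ with h | h
    · by_contra hn
      have : σ ∈ B := ⟨by linarith, h, hn⟩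
      have := le_csSup hBb this
      linarith
    · exact hAb0.mono h.le
  obtain ⟨R, hR, hRan⟩ := (hA s hs1 hs0).exists_ball_analyticOnNhd
  set ρ := min (R / 3) ((σ₂ - s) / 4) with hρ
  have hρ0 : 0 < ρ := lt_min (by linarith) (by linarith)
  have hρR : 3 * ρ ≤ R := by
    have := min_le_left (R / 3) ((σ₂ - s) / 4)
    linarith
  have hρs : 4 * ρ ≤ σ₂ - s := by
    have := min_le_right (R / 3) ((σ₂ - s) / 4)
    linarith
  set a := s + ρ with ha
  -- equality on the real interval
  have hLan : ∀ x : ℝ, s < x → AnalyticAt ℂ (Lap f) (x : ℂ) := by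
    intro x hx
    have h1 : Ab f ((s + x) / 2) := hAb _ (by linarith)
    exact (hasFPS_lap h1 (by linarith)).analyticAt
  have hopen : IsOpen {z : ℂ | σ₀ < z.re ∧ z.re < σ₂} :=
    (isOpen_lt continuous_const Complex.continuous_re).inter
      (isOpen_lt Complex.continuous_re continuous_const)
  have hΦL : ∀ x : ℝ, σ₀ < x → x < σ₂ → ∀ᶠ z in 𝓝 (x : ℂ), Φ z = Lap f z := by
    intro x hx1 hx2
    have hmem : (x : ℂ) ∈ {z : ℂ | σ₀ < z.re ∧ z.re < σ₂} := by
      simp only [mem_setOf_eq, Complex.ofReal_re]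
      exact ⟨hx1, hx2⟩
    filter_upwards [hopen.mem_nhds hmem] with z hz
    exact hΦ z hz.1 hz.2
  have hΦan : ∀ x : ℝ, s < x → x < σ₂ → AnalyticAt ℂ Φ (x : ℂ) := by
    intro x hx1 hx2
    rcases le_or_gt x σ₀ with h | h
    · exact hA x (by linarith) h
    · exact (hLan x hx1).congr ((hΦL x h hx2).mono (fun z hz => hz.symm))
  have hreal : EqOn (fun x : ℝ => Φ (x : ℂ)) (fun x : ℝ => Lap f (x : ℂ)) (Ioo s σ₂) := by
    apply AnalyticOnNhd.eqOn_of_preconnected_of_eventuallyEq (𝕜 := ℝ) (z₀ := (σ₀ + σ₂) / 2)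
    · intro x hx
      exact real_analytic (hΦan x hx.1 hx.2)
    · intro x hx
      exact real_analytic (hLan x hx.1)
    · exact isPreconnected_Ioo
    · exact ⟨by linarith, by linarith⟩
    · have h1 := hΦL ((σ₀ + σ₂) / 2) (by linarith) (by linarith)
      exact (Complex.continuous_ofReal.tendsto ((σ₀ + σ₂) / 2)).eventually h1
  -- equality near a
  have hΦa : AnalyticAt ℂ Φ (a : ℂ) := hΦan a (by linarith) (by linarith)
  have hLa : AnalyticAt ℂ (Lap f) (a : ℂ) := hLan a (by linarith)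
  have hev : ∀ᶠ z in 𝓝 (a : ℂ), Φ z = Lap f z := by
    rw [← hΦa.frequently_eq_iff_eventually_eq hLa]
    have h1 : ∀ᶠ x : ℝ in 𝓝[≠] a, Φ (x : ℂ) = Lap f (x : ℂ) := by
      have h2 : Ioo s σ₂ ∈ 𝓝[≠] a :=
        mem_nhdsWithin_of_mem_nhds (Ioo_mem_nhds (by linarith) (by linarith))
      filter_upwards [h2] with x hx
      exact hreal hx
    have h3 : Tendsto (fun x : ℝ => (x : ℂ)) (𝓝[≠] a) (𝓝[≠] (a : ℂ)) := by
      apply tendsto_nhdsWithin_of_tendsto_nhds_of_eventually_within
      · exact (Complex.continuous_ofReal.tendsto a).mono_left nhdsWithin_le_nhds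
      · filter_upwards [self_mem_nhdsWithin] with x hx
        intro h
        exact hx (Complex.ofReal_injective h)
    exact h3.frequently h1.frequently
  -- the power series of Φ at a
  set R₁ : NNReal := ⟨7 * ρ / 4, by positivity⟩ with hR₁
  have hR₁v : (R₁ : ℝ) = 7 * ρ / 4 := rfl
  have hR₁0 : 0 < R₁ := by
    rw [← NNReal.coe_pos, hR₁v]
    positivity
  have hdiff : DifferentiableOn ℂ Φ (Metric.closedBall (a : ℂ) (R₁ : ℝ)) := by
    intro z hz
    have hz' : z ∈ Metric.ball (s : ℂ) R := by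
      rw [Metric.mem_closedBall, hR₁v] at hz
      rw [Metric.mem_ball]
      have h1 : dist (a : ℂ) (s : ℂ) = ρ := by
        rw [Complex.dist_of_im_eq (by simp), Complex.ofReal_re, Complex.ofReal_re, Real.dist_eq,
          ha, add_sub_cancel_left, abs_of_pos hρ0]
      have h2 := dist_triangle z (a : ℂ) (s : ℂ)
      rw [h1] at h2
      linarith
    exact (hRan z hz').differentiableAt.differentiableWithinAt
  have hps := hdiff.hasFPowerSeriesOnBall hR₁0
  have hps2 : HasFPowerSeriesAt Φ (FormalMultilinearSeries.ofScalars ℂ (co f a)) (a : ℂ) := by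
    have h1 : Ab f (s + ρ / 2) := hAb _ (by linarith)
    exact (hasFPS_lap h1 (by linarith)).congr (hev.mono (fun z hz => hz.symm))
  have heq := hps.hasFPowerSeriesAt.eq_formalMultilinearSeries hps2
  set y := 3 * ρ / 2 with hy
  have hy0 : 0 < y := by positivity
  have hsumC : Summable (fun n : ℕ => ((y ^ n / (n.factorial : ℝ) * mom f a n : ℝ) : ℂ)) := by
    have hmem : ((-y : ℝ) : ℂ) ∈ Metric.eball (0 : ℂ) R₁ := by
      rw [Metric.mem_eball, edist_zero_right, ← ofReal_norm, Complex.norm_real, norm_neg,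
        Real.norm_eq_abs, abs_of_pos hy0, ENNReal.ofReal, ENNReal.coe_lt_coe,
        ← NNReal.coe_lt_coe, Real.coe_toNNReal _ hy0.le, hR₁v]
      rw [hy]
      linarith
    have h1 := (hps.hasSum hmem).summable
    rw [heq] at h1
    refine h1.congr ?_
    intro n
    rw [FormalMultilinearSeries.apply_eq_pow_smul_coeff,
      FormalMultilinearSeries.coeff_ofScalars]
    unfold co
    rw [smul_eq_mul]
    push_cast
    rw [neg_pow]
    have h2 : ((-1 : ℂ) ^ n) * (-1) ^ n = 1 := by
      rw [← mul_pow]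
      norm_num
    linear_combination ((y : ℂ) ^ n / (n.factorial : ℂ) * (mom f a n : ℂ)) * h2
  have hsumR : Summable (fun n : ℕ => y ^ n / (n.factorial : ℝ) * mom f a n) :=
    Complex.summable_ofReal.1 hsumC
  -- split
  set W := max V 0 with hW
  have hW0 : 0 ≤ W := le_max_right _ _
  have hAm : Ab f (s + ρ / 2) := hAb _ (by linarith)
  have hlow := summable_low hAm (show s + ρ / 2 < a by linarith) W y hW0 hy0.le
  have hhigh : Summable (fun n : ℕ => y ^ n / (n.factorial : ℝ) *
      ∫ t in Ioi W, t ^ n * (f t * Real.exp (-(a * t)))) := by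
    refine (hsumR.sub hlow).congr ?_
    intro n
    have h1 : mom f a n = (∫ t in Ioc 0 W, t ^ n * (f t * Real.exp (-(a * t)))) +
        ∫ t in Ioi W, t ^ n * (f t * Real.exp (-(a * t))) := by
      unfold mom
      have h2 := hAm.pow (show s + ρ / 2 < a by linarith) n
      rw [← Ioc_union_Ioi_eq_Ioi hW0, setIntegral_union (Ioc_disjoint_Ioi le_rfl)
        measurableSet_Ioi (h2.mono_set Ioc_subset_Ioi_self) (h2.mono_set (Ioi_subset_Ioi hW0))]
    rw [h1]
    ring
  have hres := integrable_of_summable hAm (show s + ρ / 2 < a by linarith) W y hW0 hy0.le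
    (fun t ht => hf t (lt_of_le_of_lt (le_max_left _ _) ht)) hhigh
  have hAbn : Ab f (a - y) := by
    unfold Ab
    rw [← Ioc_union_Ioi_eq_Ioi hW0]
    exact (hAm.bounded (a - y) W).union hres
  obtain ⟨σ, hσB, hσ⟩ := exists_lt_of_lt_csSup ⟨σ₁, hB1⟩ (show a - y < sSup B by
    rw [← hs, ha, hy]
    linarith)
  exact hσB.2.2 (hAbn.mono hσ.le)

end Pool.Agent.H37.MF
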