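import Pool.Agent.H37.MF.LA

/-!
# Row RL: one-sided bounds give continuation to the half plane
-/

set_option autoImplicit false

open Complex MeasureTheory Filter Topology Set

namespace Pool.Agent.H37.MF

open Pool.Agent.H25.MF

lemma norm_term {f : ℝ → ℝ} (z : ℂ) (t : ℝ) :
    ‖(f t : ℂ) * cexp (-(z * t))‖ = |f t| * Real.exp (-(z.re * t)) := by
  rw [norm_mul, Complex.norm_real, Real.norm_eq_abs, Complex.norm_exp]
  congr 2
  simp

lemma lap_meas {f : ℝ → ℝ} (hf : Measurable f) (z : ℂ) (μ : Measure ℝ) :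
    AEStronglyMeasurable (fun t : ℝ => (f t : ℂ) * cexp (-(z * t))) μ := by
  have h1 : Measurable (fun t : ℝ => (f t : ℂ) * cexp (-(z * t))) := by
    have : Measurable (fun t : ℝ => (f t : ℂ)) := Complex.measurable_ofReal.comp hf
    exact this.mul (Continuous.measurable (by fun_prop))
  exact h1.aestronglyMeasurable

lemma lap_integrable {f : ℝ → ℝ} (hf : Measurable f) {σ : ℝ} (h : Ab f σ) {z : ℂ}
    (hz : σ ≤ z.re) :
    Integrable (fun t : ℝ => (f t : ℂ) * cexp (-(z * t))) (volume.restrict (Ioi 0)) := by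
  have h1 : Ab f z.re := h.mono hz
  have h2 : Integrable (fun t : ℝ => ‖f t * Real.exp (-(z.re * t))‖)
    (volume.restrict (Ioi 0)) := h1.norm
  refine Integrable.mono' h2 (lap_meas hf z _) ?_
  filter_upwards with t
  rw [norm_term, norm_mul, Real.norm_eq_abs, Real.norm_eq_abs, abs_of_pos (Real.exp_pos _)]

lemma lap_diff {f : ℝ → ℝ} (hf : Measurable f) {σ : ℝ} (h : Ab f σ) {z : ℂ} (hz : σ < z.re) :
    DifferentiableAt ℂ (Lap f) z := by
  set m := (σ + z.re) / 2 with hm
  have hopen : IsOpen {w : ℂ | m < w.re} := isOpen_lt continuous_const Complex.continuous_re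
  have hmem : z ∈ {w : ℂ | m < w.re} := by
    simp only [mem_ofPred_eq]
    linarith
  have hb : Integrable (fun t : ℝ => ‖t ^ 1 * (f t * Real.exp (-(m * t)))‖)
      (volume.restrict (Ioi 0)) := (h.pow (show σ < m by linarith) 1).norm
  have key := hasDerivAt_integral_of_dominated_loc_of_deriv_le
    (μ := volume.restrict (Ioi (0 : ℝ)))
    (F := fun (w : ℂ) (t : ℝ) => (f t : ℂ) * cexp (-(w * t)))
    (F' := fun (w : ℂ) (t : ℝ) => (f t : ℂ) * (cexp (-(w * t)) * (-(t : ℂ))))
    (x₀ := z) (s := {w : ℂ | m < w.re})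
    (bound := fun t : ℝ => ‖t ^ 1 * (f t * Real.exp (-(m * t)))‖)
    (hopen.mem_nhds hmem)
    (Eventually.of_forall (fun w => lap_meas hf w _))
    (lap_integrable hf h hz.le)
    ?_ ?_ hb ?_
  · exact key.2.differentiableAt
  · have h1 : Measurable (fun t : ℝ => (f t : ℂ) * (cexp (-(z * t)) * (-(t : ℂ)))) := by
      have : Measurable (fun t : ℝ => (f t : ℂ)) := Complex.measurable_ofReal.comp hf
      exact this.mul (Continuous.measurable (by fun_prop))
    exact h1.aestronglyMeasurable
  · filter_upwards [ae_restrict_mem measurableSet_Ioi] with t ht w hw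
    have ht0 : (0 : ℝ) < t := ht
    have hw' : m < w.re := hw
    rw [← mul_assoc, norm_mul, norm_term, norm_neg, Complex.norm_real, norm_mul, norm_mul,
      Real.norm_eq_abs, Real.norm_eq_abs, Real.norm_eq_abs, Real.norm_eq_abs, pow_one,
      abs_of_pos (Real.exp_pos (-(m * t)))]
    have h3 : Real.exp (-(w.re * t)) ≤ Real.exp (-(m * t)) := by
      apply Real.exp_le_exp.2
      have := mul_lt_mul_of_pos_right hw' ht0
      linarith
    have h4 : 0 ≤ |f t| := abs_nonneg _
    have h5 : 0 ≤ |t| := abs_nonneg _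
    calc |f t| * Real.exp (-(w.re * t)) * |t| = |t| * (|f t| * Real.exp (-(w.re * t))) := by ring
      _ ≤ |t| * (|f t| * Real.exp (-(m * t))) := by gcongr
  · filter_upwards with t w hw
    have h1 : HasDerivAt (fun w : ℂ => -(w * (t : ℂ))) (-(1 * (t : ℂ))) w :=
      ((hasDerivAt_id w).mul_const (t : ℂ)).neg
    have h2 := (h1.cexp).const_mul (f t : ℂ)
    rw [one_mul] at h2
    exact h2

lemma lap_norm_le {f : ℝ → ℝ} (z : ℂ) :
    ‖Lap f z‖ ≤ ∫ t in Ioi (0 : ℝ), |f t| * Real.exp (-(z.re * t)) := by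
  unfold Lap
  refine le_trans (norm_integral_le_integral_norm _) (le_of_eq ?_)
  apply integral_congr_ae
  filter_upwards with t
  exact norm_term z t

lemma exp_int {b : ℝ} (hb : 0 < b) :
    Integrable (fun t : ℝ => Real.exp (-(b * t))) (volume.restrict (Ioi 0)) := by
  have h1 := exp_neg_integrableOn_Ioi 0 hb
  refine Integrable.congr h1 ?_
  filter_upwards with t
  rw [neg_mul]

/-- Row RL. -/
theorem pf_RL (hLA : T_LA) : T_RL := by
  intro h c V Φ hGr hV hΦ hA
  obtain ⟨hmeas, B, hB⟩ := hGr
  set f : ℝ → ℝ := fun v => c - h v with hf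
  have hfm : Measurable f := measurable_const.sub hmeas
  have hhAb : ∀ τ : ℝ, 5 / 8 < τ → Ab h τ := by
    intro τ hτ
    have h1 : Integrable (fun t : ℝ => B * Real.exp (-((τ - 5 / 8) * t)))
      (volume.restrict (Ioi 0)) := (exp_int (show 0 < τ - 5 / 8 by linarith)).const_mul B
    refine Integrable.mono' h1 ?_ ?_
    · have : Measurable (fun t : ℝ => h t * Real.exp (-(τ * t))) :=
        hmeas.mul (Continuous.measurable (by fun_prop))
      exact this.aestronglyMeasurable
    · filter_upwards [ae_restrict_mem measurableSet_Ioi] with t ht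
      have ht0 : (0 : ℝ) < t := ht
      have h2 := hB t
      rw [abs_of_pos ht0] at h2
      rw [norm_mul, Real.norm_eq_abs, Real.norm_eq_abs, abs_of_pos (Real.exp_pos _)]
      calc |h t| * Real.exp (-(τ * t)) ≤ (B * Real.exp (5 / 8 * t)) * Real.exp (-(τ * t)) := by
            gcongr
        _ = B * Real.exp (-((τ - 5 / 8) * t)) := by
            rw [mul_assoc, ← Real.exp_add]
            congr 2
            ring
  have hcAb : ∀ τ : ℝ, 0 < τ → Ab (fun _ => c) τ := by
    intro τ hτ
    exact (exp_int hτ).const_mul c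
  have hfAb0 : ∀ τ : ℝ, 5 / 8 < τ → Ab f τ := by
    intro τ hτ
    have h1 := (hcAb τ (by linarith))
    have h2 := hhAb τ hτ
    have h3 : Integrable (fun t : ℝ => c * Real.exp (-(τ * t)) - h t * Real.exp (-(τ * t)))
      (volume.restrict (Ioi 0)) := Integrable.sub h1 h2
    refine Integrable.congr h3 ?_
    filter_upwards with t
    rw [hf]
    simp only
    ring
  have hLc : ∀ z : ℂ, 0 < z.re →
      ∫ v in Ioi (0 : ℝ), ((c : ℝ) : ℂ) * cexp (-(z * v)) = c / z := by
    intro z hz
    rw [integral_const_mul]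
    have h1 := integral_exp_mul_complex_Ioi (a := -z) (by simpa using hz) 0
    have h2 : ∫ v in Ioi (0 : ℝ), cexp (-(z * v)) = ∫ v in Ioi (0 : ℝ), cexp (-z * v) := by
      apply integral_congr_ae
      filter_upwards with v
      rw [neg_mul]
    rw [h2, h1]
    simp
    rfl
  have hLf : ∀ z : ℂ, 5 / 8 < z.re → z.re < 1 → Lap f z = c / z - Φ z := by
    intro z hz1 hz2
    rw [hΦ z hz1 hz2, ← hLc z (by linarith)]
    unfold Lap
    have h1 := lap_integrable (f := fun _ => c) measurable_const (hcAb z.re (by linarith))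
      (le_refl z.re)
    have h2 := lap_integrable hmeas (hhAb z.re hz1) (le_refl z.re)
    rw [← integral_sub h1 h2]
    apply integral_congr_ae
    filter_upwards with t
    rw [hf]
    simp only
    push_cast
    ring
  have hAb : ∀ τ : ℝ, 0 < τ → Ab f τ := by
    intro τ hτ
    have h1 : Ab f (min τ (3 / 4)) := by
      apply hLA f V (3 / 4) (min τ (3 / 4)) 1 (fun z => c / z - Φ z) (min_le_right _ _)
        (by norm_num) ?_ (hfAb0 (3 / 4) (by norm_num)) ?_ ?_
      · intro t ht
        have := hV t ht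
        rw [hf]
        simp only
        linarith
      · intro σ h1 h2
        have hσ : 0 < σ := lt_of_lt_of_le (lt_min hτ (by norm_num)) h1
        have hne : (σ : ℂ) ≠ 0 := by
          exact_mod_cast hσ.ne'
        exact (analyticAt_const.div analyticAt_id hne).sub (hA σ hσ.le h2)
      · intro z h1 h2
        exact (hLf z (by linarith) h2).symm
    exact h1.mono (min_le_left _ _)
  set F : ℂ → ℂ := fun z => c / z - Lap f z with hF
  have hFd : ∀ z : ℂ, 0 < z.re → DifferentiableAt ℂ F z := by
    intro z hz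
    have hne : z ≠ 0 := by
      rintro rfl
      simp at hz
    have h1 : DifferentiableAt ℂ (fun z : ℂ => (c : ℂ) / z) z :=
      (differentiableAt_const _).div differentiableAt_id hne
    exact h1.sub (lap_diff hfm (hAb (z.re / 2) (by linarith)) (by linarith))
  have hFΦ : ∀ z : ℂ, 5 / 8 < z.re → z.re < 1 → F z = Φ z := by
    intro z h1 h2
    rw [hF]
    simp only
    rw [hLf z h1 h2]
    ring
  -- real points
  have hopen0 : IsOpen {z : ℂ | 0 < z.re} := isOpen_lt continuous_const Complex.continuous_re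
  have hFan : ∀ x : ℝ, 0 < x → AnalyticAt ℂ F (x : ℂ) := by
    intro x hx
    have h1 : DifferentiableOn ℂ F {z : ℂ | 0 < z.re} := fun z hz =>
      (hFd z hz).differentiableWithinAt
    exact h1.analyticAt (hopen0.mem_nhds (by simpa using hx))
  have hopen1 : IsOpen {z : ℂ | 5 / 8 < z.re ∧ z.re < 1} :=
    (isOpen_lt continuous_const Complex.continuous_re).inter
      (isOpen_lt Complex.continuous_re continuous_const)
  have hevx : ∀ x : ℝ, 5 / 8 < x → x < 1 → ∀ᶠ z in 𝓝 (x : ℂ), F z = Φ z := by
    intro x hx1 hx2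
    have hmem : (x : ℂ) ∈ {z : ℂ | 5 / 8 < z.re ∧ z.re < 1} := by
      simp only [mem_ofPred_eq, Complex.ofReal_re]
      exact ⟨hx1, hx2⟩
    filter_upwards [hopen1.mem_nhds hmem] with z hz
    exact hFΦ z hz.1 hz.2
  have hΦan : ∀ x : ℝ, 0 < x → x < 1 → AnalyticAt ℂ Φ (x : ℂ) := by
    intro x hx1 hx2
    rcases le_or_gt x (3 / 4) with h | h
    · exact hA x hx1.le h
    · exact (hFan x hx1).congr (hevx x (by linarith) hx2)
  have hreal : EqOn (fun x : ℝ => F (x : ℂ)) (fun x : ℝ => Φ (x : ℂ)) (Ioo 0 1) := by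
    refine AnalyticOnNhd.eqOn_of_preconnected_of_eventuallyEq (𝕜 := ℝ) (z₀ := (7 / 8 : ℝ))
      ?_ ?_ ?_ ?_ ?_
    · intro x hx
      exact real_analytic (hFan x hx.1)
    · intro x hx
      exact real_analytic (hΦan x hx.1 hx.2)
    · exact isPreconnected_Ioo
    · exact ⟨by norm_num, by norm_num⟩
    · have h1 := hevx (7 / 8) (by norm_num) (by norm_num)
      exact (Complex.continuous_ofReal.tendsto (7 / 8)).eventually h1
  -- bound of Φ on the real segment
  have hcont : ContinuousOn (fun x : ℝ => Φ (x : ℂ)) (Icc 0 (3 / 4)) := by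
    intro x hx
    exact ((real_analytic (hA x hx.1 hx.2)).continuousAt).continuousWithinAt
  obtain ⟨K, hK⟩ := isCompact_Icc.exists_bound_of_continuousOn hcont
  set W := max V 0 with hW
  have hW0 : 0 ≤ W := le_max_right _ _
  set D := 2 * (|c| + |B| * Real.exp (5 / 8 * W)) * Real.exp W with hD
  have hD0 : 0 ≤ D := by positivity
  have hK0 : 0 ≤ K := le_trans (norm_nonneg _) (hK 0 ⟨le_rfl, by norm_num⟩)
  have hbd : ∀ x : ℝ, 0 < x → x ≤ 3 / 4 →
      ∫ t in Ioi (0 : ℝ), |f t| * Real.exp (-(x * t)) ≤ |c| / x + K + D := by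
    intro x hx1 hx2
    have hfi : Integrable (fun t : ℝ => f t * Real.exp (-(x * t))) (volume.restrict (Ioi 0)) :=
      hAb x hx1
    have hei : Integrable (fun t : ℝ => Real.exp (-(1 * t))) (volume.restrict (Ioi 0)) :=
      exp_int one_pos
    have hfa : Integrable (fun t : ℝ => |f t| * Real.exp (-(x * t)))
        (volume.restrict (Ioi 0)) := by
      refine hfi.norm.congr ?_
      filter_upwards with t
      rw [norm_mul, Real.norm_eq_abs, Real.norm_eq_abs, abs_of_pos (Real.exp_pos _)]
    have h1 : ∫ t in Ioi (0 : ℝ), |f t| * Real.exp (-(x * t)) ≤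
        ∫ t in Ioi (0 : ℝ), (f t * Real.exp (-(x * t)) + D * Real.exp (-(1 * t))) := by
      have hsi : Integrable (fun t : ℝ => f t * Real.exp (-(x * t)) + D * Real.exp (-(1 * t)))
        (volume.restrict (Ioi 0)) := hfi.add (hei.const_mul D)
      apply integral_mono_ae hfa hsi
      filter_upwards [ae_restrict_mem measurableSet_Ioi] with t ht
      have ht0 : (0 : ℝ) < t := ht
      rcases le_or_gt t W with hle | hle
      · have h2 := hB t
        rw [abs_of_pos ht0] at h2
        have h3 : |f t| ≤ |c| + |B| * Real.exp (5 / 8 * W) := by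
          calc |f t| ≤ |c| + |h t| := abs_sub _ _
            _ ≤ |c| + |B| * Real.exp (5 / 8 * W) := by
              gcongr
              calc |h t| ≤ B * Real.exp (5 / 8 * t) := h2
                _ ≤ |B| * Real.exp (5 / 8 * W) := by
                  gcongr
                  exact le_abs_self B
        have h4 : -|f t| ≤ f t := neg_abs_le _
        have h5 : Real.exp (-(x * t)) ≤ Real.exp W * Real.exp (-(1 * t)) := by
          rw [← Real.exp_add]
          apply Real.exp_le_exp.2
          have : 0 ≤ x * t := by positivity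
          linarith
        have h6 : (|f t| - f t) * Real.exp (-(x * t)) ≤
            (2 * (|c| + |B| * Real.exp (5 / 8 * W))) * (Real.exp W * Real.exp (-(1 * t))) := by
          apply mul_le_mul _ h5 (Real.exp_pos _).le (by positivity)
          linarith
        rw [hD]
        nlinarith [h6]
      · have h2 : 0 ≤ f t := by
          have := hV t (lt_of_le_of_lt (le_max_left _ _) hle)
          rw [hf]
          simp only
          linarith
        rw [abs_of_nonneg h2]
        have : 0 ≤ D * Real.exp (-(1 * t)) := by positivity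
        linarith
    have h2 : ∫ t in Ioi (0 : ℝ), (f t * Real.exp (-(x * t)) + D * Real.exp (-(1 * t))) =
        (∫ t in Ioi (0 : ℝ), f t * Real.exp (-(x * t))) + D := by
      rw [integral_add hfi (hei.const_mul D), integral_const_mul]
      have h3 : ∫ t in Ioi (0 : ℝ), Real.exp (-(1 * t)) = 1 := by
        have := integral_exp_neg_Ioi_zero
        simpa using this
      rw [h3, mul_one]
    have h3 : ((∫ t in Ioi (0 : ℝ), f t * Real.exp (-(x * t)) : ℝ) : ℂ) = Lap f x := by
      unfold Lap
      have h9 : ∫ t in Ioi (0 : ℝ), ((f t * Real.exp (-(x * t)) : ℝ) : ℂ) =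
          ((∫ t in Ioi (0 : ℝ), f t * Real.exp (-(x * t)) : ℝ) : ℂ) := integral_ofReal
      rw [← h9]
      apply integral_congr_ae
      filter_upwards with t
      push_cast
      rfl
    have h4 : Lap f x = c / x - Φ x := by
      have h5 : F (x : ℂ) = Φ (x : ℂ) := hreal ⟨hx1, by linarith⟩
      rw [← h5, hF]
      simp only
      ring
    have h5 : ∫ t in Ioi (0 : ℝ), f t * Real.exp (-(x * t)) ≤ |c| / x + K := by
      have h6 : (∫ t in Ioi (0 : ℝ), f t * Real.exp (-(x * t))) ≤ ‖Lap f x‖ := by
        rw [← h3, Complex.norm_real]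
        exact le_abs_self _
      have h7 : ‖Lap f x‖ ≤ |c| / x + K := by
        rw [h4]
        refine le_trans (norm_sub_le _ _) ?_
        gcongr
        · rw [norm_div, Complex.norm_real, Complex.norm_real, Real.norm_eq_abs,
            Real.norm_eq_abs, abs_of_pos hx1]
        · exact hK x ⟨hx1.le, hx2⟩
      linarith
    linarith
  refine ⟨F, 2 * |c| + K + D, hFd, hFΦ, ?_⟩
  intro z hz1 hz2
  have h1 := lap_norm_le (f := f) z
  have h2 := hbd z.re hz1 hz2
  have h3 : ‖(c : ℂ) / z‖ ≤ |c| / z.re := by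
    rw [norm_div, Complex.norm_real, Real.norm_eq_abs]
    have h4 : z.re ≤ ‖z‖ := le_trans (le_abs_self _) (Complex.abs_re_le_norm z)
    gcongr
  have h4 : ‖F z‖ ≤ |c| / z.re + (|c| / z.re + K + D) := by
    rw [hF]
    simp only
    refine le_trans (norm_sub_le _ _) ?_
    linarith
  have h5 : K + D ≤ (K + D) / z.re := by
    rw [le_div_iff₀ hz1]
    have : 0 ≤ K + D := by positivity
    nlinarith
  calc ‖F z‖ ≤ |c| / z.re + (|c| / z.re + K + D) := h4
    _ ≤ |c| / z.re + |c| / z.re + (K + D) / z.re := by linarith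
    _ = (2 * |c| + K + D) / z.re := by ring

end Pool.Agent.H37.MF
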