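import Pool.Agent.H8.MC.FTargets

/-!
# Models of grids in graphs of a given size, with branch sets of bounded size
-/

set_option autoImplicit false

namespace Pool.Agent.H37.MF

open Pool.Agent.H8.MC Pool.Agent.H69.VR Pool.Agent.H8.VR Pool.Agent.H69.Sp

theorem pf_EXB : T_EXB := by
  classical
  intro C hC L hL h m hm
  obtain ⟨n, G, π, hG, hM, -, hcard⟩ := h (L * m)
  have hmL : m ≤ L * m := Nat.le_mul_of_pos_left m hL
  let ι : Fin m × Fin m → Fin (L * m) × Fin (L * m) := fun p => (p.1.castLE hmL, p.2.castLE hmL)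
  have hι : Function.Injective ι := by
    intro p q hpq
    have h1 : p.1.castLE hmL = q.1.castLE hmL := congrArg Prod.fst hpq
    have h2 : p.2.castLE hmL = q.2.castLE hmL := congrArg Prod.snd hpq
    exact Prod.ext (Fin.castLE_injective hmL h1) (Fin.castLE_injective hmL h2)
  have hgrid : ∀ p q, (grid (L * m)).Adj (ι p) (ι q) ↔ (grid m).Adj p q := by
    intro p q
    simp only [grid, ι, Fin.ext_iff, Fin.val_castLE]
  -- the number of vertices
  have hn : L * m ^ 2 ≤ n := by
    have h1 : ∀ p, ∃ v, π v = some p := by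
      intro p
      obtain ⟨⟨v, hv⟩⟩ := (hM.conn p).nonempty
      exact ⟨v, hv⟩
    choose g hg using h1
    have hg' : Function.Injective g := by
      intro p q hpq
      have := (hg p).symm.trans ((congrArg π hpq).trans (hg q))
      exact Option.some.inj this
    have h2 := Fintype.card_le_of_injective g hg'
    rw [Fintype.card_prod, Fintype.card_fin, Fintype.card_fin] at h2
    refine le_trans ?_ h2
    have h3 : m ≤ L * m := hmL
    calc L * m ^ 2 = (L * m) * m := by ring
      _ ≤ (L * m) * (L * m) := Nat.mul_le_mul_left _ h3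
  -- the corner
  have hc : (Finset.univ.filter (fun v : Fin n => ∃ p, π v = some (ι p))).card ≤ L * m ^ 2 := by
    have h1 : (Finset.univ.filter (fun v : Fin n => ∃ p, π v = some (ι p))) ⊆
        (Finset.univ : Finset (Fin m × Fin m)).biUnion
          (fun p => Finset.univ.filter (fun v : Fin n => π v = some (ι p))) := by
      intro v hv
      obtain ⟨p, hp⟩ := (Finset.mem_filter.mp hv).2
      exact Finset.mem_biUnion.mpr ⟨p, Finset.mem_univ _, Finset.mem_filter.mpr
        ⟨Finset.mem_univ _, hp⟩⟩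
    refine le_trans (Finset.card_le_card h1) (le_trans (Finset.card_biUnion_le_card_mul _ _ L ?_) ?_)
    · intro p _
      have h2 := hcard (ι p)
      rw [Set.ncard_eq_toFinset_card'] at h2
      refine le_trans (le_of_eq ?_) h2
      congr 1
      ext v
      simp
    · rw [Finset.card_univ, Fintype.card_prod, Fintype.card_fin]
      exact le_of_eq (by ring)
  obtain ⟨T, hT1, -, hT2⟩ := Finset.exists_subsuperset_card_eq (Finset.subset_univ _) hc
    (by rw [Finset.card_univ, Fintype.card_fin]; exact hn)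
  let e : Fin (L * m ^ 2) ≃ T := (T.equivFinOfCardEq hT2).symm
  have he : Function.Injective (fun a => (e a : Fin n)) := fun a b hab =>
    e.injective (Subtype.ext hab)
  have hsurj : ∀ v p, π v = some (ι p) → ∃ a, (e a : Fin n) = v := by
    intro v p hv
    have : v ∈ T := hT1 (Finset.mem_filter.mpr ⟨Finset.mem_univ _, p, hv⟩)
    exact ⟨e.symm ⟨v, this⟩, by rw [Equiv.apply_symm_apply]⟩
  let π' : Fin (L * m ^ 2) → Option (Fin m × Fin m) := fun a =>
    if h : ∃ p, π (e a) = some (ι p) then some h.choose else none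
  have hπ' : ∀ a p, π' a = some p ↔ π (e a) = some (ι p) := by
    intro a p
    by_cases h1 : ∃ p, π (e a) = some (ι p)
    · have h2 : π' a = some h1.choose := dif_pos h1
      have h3 := h1.choose_spec
      rw [h2]
      constructor
      · intro h4
        rw [← Option.some.inj h4]
        exact h3
      · intro h4
        rw [hι (Option.some.inj (h3.symm.trans h4))]
    · have h2 : π' a = none := dif_neg h1
      rw [h2]
      constructor
      · intro h3
        cases h3
      · intro h3
        exact absurd ⟨p, h3⟩ h1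
  let H : SimpleGraph (Fin (L * m ^ 2)) :=
    { Adj := fun a b => G.Adj (e a) (e b) ∧ (∃ p, π (e a) = some (ι p)) ∧ ∃ p, π (e b) = some (ι p)
      symm := ⟨fun a b hab => ⟨hab.1.symm, hab.2.2, hab.2.1⟩⟩
      loopless := ⟨fun a ha => G.loopless.irrefl _ ha.1⟩ }
  refine ⟨H, π', hC _ n H G hG ⟨fun a => (e a : Fin n), he, fun a b hab => hab.1⟩, ⟨?_, ?_, ?_⟩, ?_⟩
  · intro p
    have h1 := hM.conn (ι p)
    let ψ : {v | π' v = some p} ≃ {v | π v = some (ι p)} := Equiv.ofBijective
      (fun a => ⟨(e a.1 : Fin n), (hπ' a.1 p).mp a.2⟩)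
      ⟨fun a b hab => Subtype.ext (he (Subtype.mk.inj hab)), fun v => by
        obtain ⟨a, ha⟩ := hsurj v.1 p v.2
        refine ⟨⟨a, (hπ' a p).mpr ?_⟩, Subtype.ext ha⟩
        rw [ha]; exact v.2⟩
    let φ : (H.induce {v | π' v = some p}) ≃g (G.induce {v | π v = some (ι p)}) :=
      { toEquiv := ψ
        map_rel_iff' := by
          intro v w
          constructor
          · intro h
            exact ⟨h, ⟨p, (hπ' v.1 p).mp v.2⟩, ⟨p, (hπ' w.1 p).mp w.2⟩⟩
          · intro h
            exact h.1 }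
    exact φ.connected_iff.mpr h1
  · rintro u v ⟨huv, ⟨p, hp⟩, ⟨q, hq⟩⟩
    refine ⟨p, q, (hπ' u p).mpr hp, (hπ' v q).mpr hq, ?_⟩
    obtain ⟨p', q', hp', hq', h⟩ := hM.adj _ _ huv
    rw [hp] at hp'
    rw [hq] at hq'
    obtain rfl := Option.some.inj hp'
    obtain rfl := Option.some.inj hq'
    rcases h with h | h
    · exact Or.inl (hι h)
    · exact Or.inr ((hgrid p q).mp h)
  · intro p q hpq
    obtain ⟨u, v, hu, hv, huv⟩ := hM.one _ _ ((hgrid p q).mpr hpq)
    obtain ⟨a, rfl⟩ := hsurj u p hu
    obtain ⟨b, rfl⟩ := hsurj v q hv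
    exact ⟨a, b, (hπ' a p).mpr hu, (hπ' b q).mpr hv, huv, ⟨p, hu⟩, ⟨q, hv⟩⟩
  · intro p
    refine le_trans ?_ (hcard (ι p))
    refine Set.ncard_le_ncard_of_injOn (fun a => (e a : Fin n)) ?_ he.injOn (Set.toFinite _)
    intro a ha
    exact (hπ' a p).mp ha

end Pool.Agent.H37.MF
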