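import Pool.Agent.H25.MF.Targets

/-!
# Laplace integrals: power series at real points
-/

set_option autoImplicit false

open Complex MeasureTheory Filter Topology Set

namespace Pool.Agent.H37.MF

/-- The Laplace integral. -/
noncomputable def Lap (f : ℝ → ℝ) (z : ℂ) : ℂ := ∫ t in Ioi (0 : ℝ), (f t : ℂ) * cexp (-(z * t))

/-- Absolute convergence at `σ`. -/
def Ab (f : ℝ → ℝ) (σ : ℝ) : Prop :=
  IntegrableOn (fun t : ℝ => f t * Real.exp (-(σ * t))) (Ioi 0)

lemma Ab.mul_bdd {f : ℝ → ℝ} {σ : ℝ} (h : Ab f σ) (φ : ℝ → ℝ) (hφ : Continuous φ) (C : ℝ)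
    (hC : ∀ t, 0 < t → |φ t| ≤ C) :
    IntegrableOn (fun t : ℝ => φ t * (f t * Real.exp (-(σ * t)))) (Ioi 0) := by
  have h1 : Integrable (fun t : ℝ => f t * Real.exp (-(σ * t))) (volume.restrict (Ioi 0)) := h
  have h2 := h1.norm.const_mul C
  refine Integrable.mono' h2 (hφ.aestronglyMeasurable.mul h1.aestronglyMeasurable) ?_
  filter_upwards [ae_restrict_mem measurableSet_Ioi] with t ht
  rw [norm_mul, Real.norm_eq_abs]
  exact mul_le_mul_of_nonneg_right (hC t ht) (norm_nonneg _)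

lemma Ab.mono {f : ℝ → ℝ} {σ τ : ℝ} (h : Ab f σ) (hst : σ ≤ τ) : Ab f τ := by
  have h1 := h.mul_bdd (fun t => Real.exp (-((τ - σ) * t))) (by fun_prop) 1 (by
    intro t ht
    rw [abs_of_pos (Real.exp_pos _), Real.exp_le_one_iff]
    have : 0 ≤ (τ - σ) * t := mul_nonneg (by linarith) ht.le
    linarith)
  unfold Ab
  refine h1.congr ?_
  filter_upwards with t
  rw [mul_left_comm, ← Real.exp_add]
  congr 2
  ring

/-- The powers times a decaying exponential are bounded. -/
lemma pow_bdd (n : ℕ) (ε : ℝ) (hε : 0 < ε) : ∃ C : ℝ, ∀ t, 0 < t → |t ^ n * Real.exp (-(ε * t))| ≤ C := by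
  refine ⟨(n.factorial : ℝ) / ε ^ n, ?_⟩
  intro t ht
  rw [abs_of_nonneg (by positivity)]
  have h1 : (ε * t) ^ n / (n.factorial : ℝ) ≤ Real.exp (ε * t) :=
    Real.pow_div_factorial_le_exp (ε * t) (by positivity) n
  rw [Real.exp_neg, le_div_iff₀ (by positivity), ← div_eq_mul_inv, div_mul_eq_mul_div,
    div_le_iff₀ (Real.exp_pos _)]
  rw [div_le_iff₀ (by positivity), mul_pow] at h1
  linarith

lemma Ab.pow {f : ℝ → ℝ} {σ a : ℝ} (h : Ab f σ) (ha : σ < a) (n : ℕ) :
    IntegrableOn (fun t : ℝ => t ^ n * (f t * Real.exp (-(a * t)))) (Ioi 0) := by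
  obtain ⟨C, hC⟩ := pow_bdd n (a - σ) (by linarith)
  have h1 := h.mul_bdd (fun t => t ^ n * Real.exp (-((a - σ) * t))) (by fun_prop) C hC
  refine h1.congr ?_
  filter_upwards with t
  have : Real.exp (-((a - σ) * t)) * Real.exp (-(σ * t)) = Real.exp (-(a * t)) := by
    rw [← Real.exp_add]
    congr 1
    ring
  calc t ^ n * Real.exp (-((a - σ) * t)) * (f t * Real.exp (-(σ * t))) =
      t ^ n * (f t * (Real.exp (-((a - σ) * t)) * Real.exp (-(σ * t)))) := by ring
    _ = _ := by rw [this]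

/-- The moments. -/
noncomputable def mom (f : ℝ → ℝ) (a : ℝ) (n : ℕ) : ℝ :=
  ∫ t in Ioi (0 : ℝ), t ^ n * (f t * Real.exp (-(a * t)))

/-- The Taylor coefficients. -/
noncomputable def co (f : ℝ → ℝ) (a : ℝ) (n : ℕ) : ℂ :=
  (((-1) ^ n / (n.factorial : ℝ) * mom f a n : ℝ) : ℂ)

/-- The power series of the Laplace integral. -/
lemma hasSum_lap {f : ℝ → ℝ} {σ a : ℝ} (h : Ab f σ) (z : ℂ) (hz : ‖z‖ < a - σ) :
    HasSum (fun n : ℕ => z ^ n * co f a n) (Lap f (a + z)) := by
  have ha : σ < a := by linarith [norm_nonneg z]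
  set μ := volume.restrict (Ioi (0 : ℝ)) with hμ
  set F : ℕ → ℝ → ℂ := fun n t =>
    (z ^ n * ((-1) ^ n / (n.factorial : ℂ))) * ((t ^ n * (f t * Real.exp (-(a * t))) : ℝ) : ℂ) with hF
  have hFi : ∀ n, Integrable (F n) μ := by
    intro n
    rw [hF]
    exact ((h.pow ha n).ofReal).const_mul _
  have hFn : ∀ n, ∀ᵐ t ∂μ, ‖F n t‖ =
      (‖z‖ * t) ^ n / (n.factorial : ℝ) * (|f t| * Real.exp (-(a * t))) := by
    intro n
    filter_upwards [ae_restrict_mem measurableSet_Ioi] with t ht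
    have ht0 : (0 : ℝ) < t := ht
    rw [hF]
    simp only
    rw [norm_mul, norm_mul, norm_pow, norm_div, norm_pow, norm_neg, norm_one, one_pow,
      Complex.norm_natCast, Complex.norm_real, norm_mul, norm_pow, norm_mul, Real.norm_eq_abs,
      Real.norm_eq_abs, Real.norm_eq_abs, abs_of_pos ht0, abs_of_pos (Real.exp_pos _), mul_pow]
    ring
  have habs : Integrable (fun t => |f t| * Real.exp (-((a - ‖z‖) * t))) μ := by
    have h1 : Ab f (a - ‖z‖) := h.mono (by linarith)
    have h2 : Integrable (fun t => ‖f t * Real.exp (-((a - ‖z‖) * t))‖) μ := h1.norm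
    refine h2.congr ?_
    filter_upwards with t
    rw [norm_mul, Real.norm_eq_abs, Real.norm_eq_abs, abs_of_pos (Real.exp_pos _)]
  have hsum : Summable (fun n => ∫ t, ‖F n t‖ ∂μ) := by
    apply summable_of_sum_range_le (c := ∫ t, |f t| * Real.exp (-((a - ‖z‖) * t)) ∂μ)
    · intro n
      exact integral_nonneg (fun t => norm_nonneg _)
    · intro n
      rw [← integral_finset_sum _ (fun i _ => (hFi i).norm)]
      apply integral_mono_ae (integrable_finset_sum _ (fun i _ => (hFi i).norm)) habs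
      have hall : ∀ᵐ t ∂μ, ∀ i : ℕ, ‖F i t‖ =
          (‖z‖ * t) ^ i / (i.factorial : ℝ) * (|f t| * Real.exp (-(a * t))) :=
        ae_all_iff.2 hFn
      filter_upwards [hall, ae_restrict_mem measurableSet_Ioi] with t ht ht0
      have ht0' : (0 : ℝ) < t := ht0
      rw [Finset.sum_congr rfl (fun i _ => ht i), ← Finset.sum_mul]
      have h3 := Real.sum_le_exp_of_nonneg (show 0 ≤ ‖z‖ * t by positivity) n
      calc (∑ i ∈ Finset.range n, (‖z‖ * t) ^ i / (i.factorial : ℝ)) *
            (|f t| * Real.exp (-(a * t)))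
          ≤ Real.exp (‖z‖ * t) * (|f t| * Real.exp (-(a * t))) := by gcongr
        _ = |f t| * (Real.exp (‖z‖ * t) * Real.exp (-(a * t))) := by ring
        _ = |f t| * Real.exp (-((a - ‖z‖) * t)) := by
            rw [← Real.exp_add]
            congr 2
            ring
  have hmain := hasSum_integral_of_summable_integral_norm hFi hsum
  have e1 : ∀ n, ∫ t, F n t ∂μ = z ^ n * co f a n := by
    intro n
    rw [hF]
    simp only
    have h9 : ∫ t, ((t ^ n * (f t * Real.exp (-(a * t))) : ℝ) : ℂ) ∂μ = ((mom f a n : ℝ) : ℂ) :=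
      integral_ofReal
    rw [integral_const_mul, h9]
    unfold co
    push_cast
    ring
  have e2 : ∫ t, ∑' n, F n t ∂μ = Lap f (a + z) := by
    unfold Lap
    apply integral_congr_ae
    filter_upwards with t
    have h4 : HasSum (fun n : ℕ => F n t)
        (cexp (-(z * t)) * ((f t * Real.exp (-(a * t)) : ℝ) : ℂ)) := by
      have h5 := NormedSpace.expSeries_div_hasSum_exp (-(z * (t : ℂ)))
      rw [← Complex.exp_eq_exp_ℂ] at h5
      have h6 := h5.mul_right ((f t * Real.exp (-(a * t)) : ℝ) : ℂ)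
      refine h6.congr_fun ?_
      intro n
      rw [hF]
      simp only
      have h8 : (-(z * (t : ℂ))) ^ n = (-1) ^ n * (z ^ n * (t : ℂ) ^ n) := by
        rw [neg_pow, mul_pow]
      rw [h8]
      push_cast
      ring
    rw [h4.tsum_eq]
    push_cast
    rw [mul_left_comm, ← Complex.exp_add]
    congr 2
    ring
  rw [e2] at hmain
  simp only [e1] at hmain
  exact hmain

lemma hasFPS_lap {f : ℝ → ℝ} {σ a : ℝ} (h : Ab f σ) (ha : σ < a) :
    HasFPowerSeriesAt (Lap f) (FormalMultilinearSeries.ofScalars ℂ (co f a)) (a : ℂ) := by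
  rw [hasFPowerSeriesAt_iff]
  have h1 : ∀ᶠ z : ℂ in 𝓝 0, ‖z‖ < a - σ := by
    have : Tendsto (fun z : ℂ => ‖z‖) (𝓝 0) (𝓝 0) := by
      simpa using (continuous_norm (E := ℂ)).tendsto 0
    exact this.eventually (gt_mem_nhds (by linarith))
  filter_upwards [h1] with z hz
  have h2 := hasSum_lap h z hz
  simpa [FormalMultilinearSeries.coeff_ofScalars] using h2

end Pool.Agent.H37.MF
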